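import Mathlib
import Pool.Agent.X322.Hs96b

/-!
# MP_f96ee4_an, Q1

For some `α, δ, C > 0` the recurrence
`x_{n+1} = (α + x_n + δ x_{n-2}) / (x_n + C x_{n-1})`
has a bounded solution with positive initial values that converges to no periodic
sequence (in particular neither to the positive equilibrium nor to any
periodic solution).
-/

set_option autoImplicit false

open Filter Topology

namespace Pool.Agent.Results.MP_f96ee4_an.BoundedNonperiodic

theorem result :
    ∃ α δ C : ℝ, 0 < α ∧ 0 < δ ∧ 0 < C ∧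
      ∃ x : ℕ → ℝ, 0 < x 0 ∧ 0 < x 1 ∧ 0 < x 2 ∧
        (∀ n, x (n + 3) = (α + x (n + 2) + δ * x n) / (x (n + 2) + C * x (n + 1))) ∧
        (∃ K, ∀ n, x n ≤ K) ∧
        ∀ p : ℕ → ℝ, (∃ k, 0 < k ∧ ∀ n, p (n + k) = p n) →
          ¬ Tendsto (fun n => x n - p n) atTop (𝓝 0) :=
  Pool.Agent.X322.Hs96.main

end Pool.Agent.Results.MP_f96ee4_an.BoundedNonperiodic
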